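import Pool.Agent.Helper87.MD.Goals
import Pool.Agent.Helper73.LF.Goals

/-!
# Linear forms and division points (MP_c307ca_nt): the common form U of LF and MultiplesAndDivision
-/

set_option autoImplicit false

open Finset
open scoped Classical

namespace Pool.Agent.Helper92.LFU

open Pool.Agent.Helper98.Lang Pool.Agent.Helper73.LF

/-- the product over the coordinates, box `[1, M]` -/
noncomputable def PM {m : ℕ} (θ : Fin m → ℝ) (M h : ℕ) : ℝ :=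
  ∏ i, min (M : ℝ) (1 / nd (h * θ i))

/-- **FOU1.** The Fourier bound for the box `[1, M] ^ m` (as LF-FOU, geometric sums over `Icc 1 M`). -/
def GFou1 : Prop := ∀ (m M T : ℕ) (θ : Fin m → ℝ), 1 ≤ T →
  (∀ h : ℕ, 1 ≤ h → ∀ i, 0 < nd (h * θ i)) →
  ∀ S : Finset (Fin m → ℕ),
    (∀ a ∈ S, (∀ i, 1 ≤ a i ∧ a i ≤ M) ∧ nd (∑ i, (a i : ℝ) * θ i) ≤ 1 / (2 * T)) →
    (S.card : ℝ) ≤ 3 / T * ((M : ℝ) ^ m + 2 * ∑ h ∈ Ico 1 T, PM θ M h)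

/-- **BLKU.** The second terms, with `d` and `s`. -/
def GBlkU : Prop := ∀ (m : ℕ) (x : Fin m → ℝ), 1 ≤ m → SchP x → ∀ e c A α : ℝ, 0 < e → 0 < c →
  0 ≤ α → A + α < 1 → ∃ (κ : ℝ) (N0 : ℕ), 0 < κ ∧ ∀ M d s : ℕ, N0 ≤ M ^ m * d → 1 ≤ s →
    (s : ℝ) ≤ ((M ^ m * d : ℕ) : ℝ) ^ α →
    ∑ q ∈ Icc 2 ⌊((M ^ m * d : ℕ) : ℝ) ^ A⌋₊, (d : ℝ) * tq e c q *
        ∑ h ∈ Ico 1 ⌊1 / (2 * Pool.Agent.Helper87.MD.et c e d q)⌋₊,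
          PM x M (s * (h * (q / Nat.gcd d q)))
      ≤ ((M ^ m * d : ℕ) : ℝ) ^ (1 - κ)

/-- the case `A + α < 1` -/
def StmtG : Prop := ∀ e : ℝ, 0 < e → ∃ C : ℝ, ∀ (m : ℕ) (x : Fin m → ℝ), 1 ≤ m →
  (∀ i, IsAlgebraic ℚ (x i)) → Indep x → ∀ c A α : ℝ, 0 < c → A + α < 1 →
  ∃ N0 : ℕ, ∀ M d s : ℕ, N0 ≤ M ^ m * d → 1 ≤ s → (s : ℝ) ≤ ((M : ℝ) ^ m * d) ^ α →
    ∀ Q : ℝ, 2 ≤ Q →
    ({y : (Fin m → ℕ) × ℕ | (∀ i, 1 ≤ y.1 i ∧ y.1 i ≤ M) ∧ y.2 < d ∧ ∃ (p : ℤ) (q : ℕ), Q ≤ q ∧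
        (q : ℝ) ≤ ((M : ℝ) ^ m * d) ^ A ∧
        |((s : ℝ) * ∑ i, (y.1 i : ℝ) * x i + y.2) / d - (p : ℝ) / (q : ℝ)|
          ≤ c / ((q : ℝ) ^ 2 * Real.log (q : ℝ) ^ (1 + e))}.ncard : ℝ)
      ≤ C * c * ((M : ℝ) ^ m * d) / Real.log Q ^ e

/-- **FINU.**

Proof. `N0 ≥ 2`, so `s ≥ 1` gives `α ≥ 0` (otherwise no `s`). `K = M ^ m d`. The set is contained in
the union over `q ∈ [max 2 ⌈Q⌉, ⌊K^A⌋]`; for each `q` and `a`, `CntStmt` (Helper87.MD, proved) with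
`θ = s a.x` bounds the number of `b` by `4 c d / (q L) + gcd [et < 1/2, nd (θ q') ≤ et]`. The number
of `a` with `et < 1/2` and `nd (sum a_i (s q' x_i)) ≤ et` is, by `GFou1` with `T = ⌊1/(2 et)⌋`,
`1/T ≤ 4 et`, at most `12 et M ^ m + 24 et ∑_{h < T} PM x M (s (h q'))`; `gcd * et = c d / (q L)`
`= d tq`. Sum over `q`: `GLog` and `GBlkU`; finally `24 K ^ (1-κ) ≤ c K / (log Q) ^ e` if `Q ≤ K ^ A`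
(else the set is empty), `K` large. `C = 16 (1 + 1/e) + 1`. -/
def FinU : Prop := GSch → Pool.Agent.Helper87.MD.CntStmt → GFou1 → GBlkU → GLog → StmtG

/-- the final statement -/
def MainU : Prop := ∀ ε ε' : ℝ, 0 < ε → 0 ≤ ε' → ε' < ε →
  ∃ C : ℝ, ∀ (m : ℕ) (x : Fin m → ℝ), 1 ≤ m → (∀ i, IsAlgebraic ℚ (x i)) →
  (∀ (u : ℤ) (v : Fin m → ℤ), (u : ℝ) + ∑ i, (v i : ℝ) * x i = 0 → u = 0 ∧ v = 0) →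
  ∀ c A α : ℝ, 0 < c → α < 1 → (m = 1 ∨ A + α < 1) →
  ∃ N0 : ℕ, ∀ M d s : ℕ, N0 ≤ M ^ m * d → 1 ≤ s → (s : ℝ) ≤ ((M : ℝ) ^ m * d) ^ α →
    ∀ Q : ℝ, 2 ≤ Q →
    ({y : (Fin m → ℕ) × ℕ | (∀ i, 1 ≤ y.1 i ∧ y.1 i ≤ M) ∧ y.2 < d ∧ ∃ (p : ℤ) (q : ℕ), Q ≤ q ∧
        (q : ℝ) ≤ ((M : ℝ) ^ m * d) ^ A ∧
        |((s : ℝ) * ∑ i, (y.1 i : ℝ) * x i + y.2) / d - (p : ℝ) / (q : ℝ)|
          ≤ c / ((q : ℝ) ^ 2 * Real.log (q : ℝ) ^ (1 + ε))}.ncard : ℝ)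
      ≤ C * c * ((M : ℝ) ^ m * d) / Real.log Q ^ ε'

end Pool.Agent.Helper92.LFU
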